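import Pool.Agent.Helper54.PT.DefsD
import Pool.Agent.Helper45.TW.A1

/-!
# Module C23: the symbols of the differences at the bad primes, and their degrees
-/

set_option autoImplicit false

namespace Pool.Agent.Helper54.PT

open Polynomial Finset Filter Topology Module

section

variable {F : Type} [Field F] [Finite F] {ℓ : ℕ} [Fact ℓ.Prime] {ι : Type} [Fintype ι]
  [DecidableEq ι] {σ : Type} [Fintype σ] [DecidableEq σ] {a : ι → ℕ} {e : ι → F[X]}
  {R : σ → Prm F} {i₁ i₂ : σ → ι} {N : ℕ} {lg : F → ZMod ℓ}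

omit [Finite F] in
/-- distinct bad primes do not divide each other -/
theorem c23_not_dvd {P Q : Prm F} (h : P ≠ Q) : ¬ P.1 ∣ Q.1 := by
  intro hd
  apply h
  apply Subtype.ext
  exact eq_of_monic_of_associated P.2.1 Q.2.1 (P.2.2.associated_of_dvd Q.2.2 hd)

omit [Finite F] in
/-- the value of `lam` -/
theorem c23_lam (hlg : IsLog ℓ lg) (hS : Setup ℓ a e R i₁ i₂ N) (r : σ) (i m : ι) (him : i ≠ m)
    (hp : s(i₁ r, i₂ r) ≠ s(i, m)) :
    lam i₁ i₂ (lglE lg e N) (fun r => ((R r).1.natDegree : ZMod ℓ))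
      (fun r r' => sy lg (R r).1 (R r').1) r i m = sy lg (R r).1 (e i - e m) := by
  have hne : ∀ r' ∈ univ.filter (fun r' => s(i₁ r', i₂ r') = s(i, m)), r' ≠ r := by
    intro r' hr' h
    rw [mem_filter] at hr'
    rw [h] at hr'
    exact hp hr'.2
  have hset : univ.filter (fun r' => r' ≠ r ∧ s(i₁ r', i₂ r') = s(i, m)) =
      univ.filter (fun r' => s(i₁ r', i₂ r') = s(i, m)) := by
    ext r'
    simp only [mem_filter, mem_univ, true_and]
    constructor
    · exact fun h => h.2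
    · intro h
      exact ⟨hne r' (by simpa using h), h⟩
  have hc : (e i).coeff N - (e m).coeff N ≠ 0 := sub_ne_zero.2 (hS.lead i m him)
  have hmon := (R r).2.1
  have hirr := (R r).2.2
  have h1 : ¬ (R r).1 ∣ C ((e i).coeff N - (e m).coeff N) := by
    intro hd
    exact hirr.not_isUnit (isUnit_of_dvd_unit hd (isUnit_C.2 (isUnit_iff_ne_zero.2 hc)))
  have h2 : ∀ r' ∈ univ.filter (fun r' => s(i₁ r', i₂ r') = s(i, m)), ¬ (R r).1 ∣ (R r').1 := by
    intro r' hr'
    exact c23_not_dvd fun h => hne r' hr' (hS.inj h.symm)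
  have h3 : ¬ (R r).1 ∣ ∏ r' ∈ univ.filter (fun r' => s(i₁ r', i₂ r') = s(i, m)), (R r').1 := by
    intro hd
    obtain ⟨r', hr', h4⟩ := (Prime.dvd_finsetProd_iff hirr.prime _).1 hd
    exact h2 r' hr' h4
  rw [hS.fact i m him, sy_mul hlg hmon hirr h1 h3, sy_C hlg hmon hc,
    sy_prod hlg hmon hirr _ _ h2, lam, hset, lglE]
  ring

/-- C23a: `hlam` of C11 for the actual data -/
theorem lam_eq (hlg : IsLog ℓ lg) (hm : lg (-1) = 0) (hS : Setup ℓ a e R i₁ i₂ N) (r : σ) (m : ι)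
    (h1 : m ≠ i₁ r) (h2 : m ≠ i₂ r) :
    lam i₁ i₂ (lglE lg e N) (fun r => ((R r).1.natDegree : ZMod ℓ))
      (fun r r' => sy lg (R r).1 (R r').1) r (i₁ r) m =
    lam i₁ i₂ (lglE lg e N) (fun r => ((R r).1.natDegree : ZMod ℓ))
      (fun r r' => sy lg (R r).1 (R r').1) r (i₂ r) m := by
  have hne := hS.ne r
  rw [c23_lam hlg hS r (i₁ r) m h1.symm, c23_lam hlg hS r (i₂ r) m h2.symm]
  · apply sy_congr
    have h : (e (i₁ r) - e m) - (e (i₂ r) - e m) = e (i₁ r) - e (i₂ r) := by ring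
    rw [h, hS.fact _ _ hne]
    apply Dvd.dvd.mul_left
    exact Finset.dvd_prod_of_mem (fun r => (R r).1) (mem_filter.2 ⟨mem_univ r, rfl⟩)
  · intro h
    rw [Sym2.eq_iff] at h
    rcases h with ⟨h3, h4⟩ | ⟨h3, h4⟩
    · exact h2 h4.symm
    · exact h1 h3.symm
  · intro h
    rw [Sym2.eq_iff] at h
    rcases h with ⟨h3, h4⟩ | ⟨h3, h4⟩
    · exact h2 h4.symm
    · exact h1 h3.symm

/-- C23b: the degree condition of C11 for the actual data -/
theorem sum_deg_eq (hS : Setup ℓ a e R i₁ i₂ N) (i m : ι) (him : i ≠ m) :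
    ∑ r ∈ univ.filter (fun r => s(i₁ r, i₂ r) = s(i, m)), (R r).1.natDegree = N := by
  have hc : (e i).coeff N - (e m).coeff N ≠ 0 := sub_ne_zero.2 (hS.lead i m him)
  have h1 : (e i - e m).natDegree = N := by
    apply le_antisymm
    · exact (natDegree_sub_le _ _).trans (max_le (hS.deg i) (hS.deg m))
    · apply le_natDegree_of_ne_zero
      rw [coeff_sub]
      exact hc
  rw [hS.fact i m him, natDegree_C_mul hc, natDegree_prod_of_monic _ _ fun r _ => (R r).2.1] at h1
  exact h1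

end

end Pool.Agent.Helper54.PT
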